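import Pool.Agent.Helper67.NX2.Defs
import Pool.Agent.Helper99.NX.LpLocalAux

/-!
# Project NX2, A25: localisation along progressions (auxiliary lemmas)
-/

set_option autoImplicit false

open Finset
open scoped BigOperators ComplexConjugate

namespace Pool.Agent.Helper67.NX2

open Pool.Agent.Helper57.NX

noncomputable section

/-! ### variation of block-constant functions -/

theorem la_div_le (a l R : ℕ) (hR : 1 ≤ R) :
    (((a + l) / R - a / R : ℕ) : ℝ) ≤ (l : ℝ) / R + 1 := by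
  have hR0 : (0 : ℝ) < R := by exact_mod_cast hR
  have h1 : (a + l) / R ≤ a / R + l / R + 1 := by
    rw [Nat.div_le_iff_le_mul_add_pred (by omega)]
    have h2 := Nat.div_add_mod a R
    have h3 := Nat.div_add_mod l R
    have h4 := Nat.mod_lt a (by omega : R > 0)
    have h5 := Nat.mod_lt l (by omega : R > 0)
    have h6 : R * (a / R + l / R + 1) = R * (a / R) + R * (l / R) + R := by ring
    omega
  have h2 : (a + l) / R - a / R ≤ l / R + 1 := by
    rw [Nat.sub_le_iff_le_add]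
    linarith
  have h3 : (((a + l) / R - a / R : ℕ) : ℝ) ≤ ((l / R : ℕ) : ℝ) + 1 := by exact_mod_cast h2
  have h4 : ((l / R : ℕ) : ℝ) ≤ (l : ℝ) / R := Nat.cast_div_le
  linarith

theorem la_div_succ (t R : ℕ) (hR : 1 ≤ R) : (t + 1) / R = t / R ∨ (t + 1) / R = t / R + 1 := by
  have h1 : t / R ≤ (t + 1) / R := Nat.div_le_div_right (by omega)
  have h2 : (t + 1) / R ≤ t / R + 1 := by
    calc (t + 1) / R ≤ (t + R) / R := Nat.div_le_div_right (by omega)
      _ = t / R + 1 := Nat.add_div_right t (by omega)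
  omega

theorem la_tv_div_aux (G : ℕ → ℂ) (R : ℕ) (hR : 1 ≤ R) (a l : ℕ) :
    ∑ j ∈ range l, ‖G ((a + j + 1) / R) - G ((a + j) / R)‖ =
      ∑ w ∈ range ((a + l) / R - a / R), ‖G (a / R + w + 1) - G (a / R + w)‖ := by
  induction l with
  | zero => simp
  | succ l ih =>
    rw [sum_range_succ, ih]
    have hm : a / R ≤ (a + l) / R := Nat.div_le_div_right (by omega)
    rcases la_div_succ (a + l) R hR with h | h
    · have h' : (a + (l + 1)) / R = (a + l) / R := by rw [← h]; rfl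
      rw [h, h', sub_self, norm_zero, add_zero]
    · have h' : (a + (l + 1)) / R = (a + l) / R + 1 := by rw [← h]; rfl
      have h2 : (a + (l + 1)) / R - a / R = ((a + l) / R - a / R) + 1 := by omega
      rw [h2, sum_range_succ, h]
      have h3 : a / R + ((a + l) / R - a / R) = (a + l) / R := by omega
      rw [h3]

theorem la_tv_div (G : ℕ → ℂ) (B X : ℝ) (hX : 1 ≤ X) (R : ℕ) (hR : 1 ≤ R)
    (h : ∀ a l : ℕ, ∑ j ∈ range l, ‖G (a + j + 1) - G (a + j)‖ ≤ B * (l / X + 1)) (a l : ℕ) :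
    ∑ j ∈ range l, ‖G ((a + j + 1) / R) - G ((a + j) / R)‖ ≤ 2 * B * (l / (R * X) + 1) := by
  have hB : 0 ≤ B := by simpa using h 0 0
  have hR0 : (0 : ℝ) < R := by exact_mod_cast hR
  have hX0 : 0 < X := by linarith
  rw [la_tv_div_aux G R hR a l]
  refine (h (a / R) _).trans ?_
  have h1 := la_div_le a l R hR
  have h2 : (((a + l) / R - a / R : ℕ) : ℝ) / X ≤ ((l : ℝ) / R + 1) / X :=
    div_le_div_of_nonneg_right h1 hX0.le
  have h3 : ((l : ℝ) / R + 1) / X = l / (R * X) + 1 / X := by field_simp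
  have h4 : 1 / X ≤ 1 := by rw [div_le_one hX0]; exact hX
  have h5 : (0 : ℝ) ≤ l / (R * X) := by positivity
  have h6 : (((a + l) / R - a / R : ℕ) : ℝ) / X + 1 ≤ 2 * (l / (R * X) + 1) := by linarith
  calc B * ((((a + l) / R - a / R : ℕ) : ℝ) / X + 1) ≤ B * (2 * (l / (R * X) + 1)) :=
        mul_le_mul_of_nonneg_left h6 hB
    _ = 2 * B * (l / (R * X) + 1) := by ring

theorem la_f0_tv {N : ℕ} (f : ZMod N → ℂ) (hf : ∀ x, ‖f x‖ ≤ 1) (B : ℝ) (Q : ℕ) (hQ : 1 ≤ Q)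
    (hB : TV B Q f) (ψ : ℕ → ℂ) (hψ : ∀ y, ‖ψ y‖ ≤ 1) (z : ZMod N) (a l : ℕ) :
    ∑ j ∈ range l, ‖ψ ((a + j + 1) / Q) * f (z + ((a + j + 1 : ℕ) : ZMod N)) -
      ψ ((a + j) / Q) * f (z + ((a + j : ℕ) : ZMod N))‖ ≤ (B + 2) * (l / Q + 1) := by
  have hstep : ∀ j : ℕ, ‖ψ ((a + j + 1) / Q) * f (z + ((a + j + 1 : ℕ) : ZMod N)) -
      ψ ((a + j) / Q) * f (z + ((a + j : ℕ) : ZMod N))‖ ≤
      ‖f ((z + (a : ZMod N)) + (j : ZMod N) + 1) - f ((z + (a : ZMod N)) + (j : ZMod N))‖ +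
      2 * ((((a + (j + 1)) / Q : ℕ) : ℝ) - (((a + j) / Q : ℕ) : ℝ)) := by
    intro j
    have e1 : z + ((a + j + 1 : ℕ) : ZMod N) = (z + (a : ZMod N)) + (j : ZMod N) + 1 := by
      push_cast; ring
    have e2 : z + ((a + j : ℕ) : ZMod N) = (z + (a : ZMod N)) + (j : ZMod N) := by
      push_cast; ring
    rw [e1, e2, ← add_assoc a j 1]
    generalize (z + (a : ZMod N)) + (j : ZMod N) + 1 = p
    generalize (z + (a : ZMod N)) + (j : ZMod N) = q
    rcases la_div_succ (a + j) Q hQ with h | h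
    · rw [h, ← mul_sub, norm_mul, sub_self, mul_zero, add_zero]
      exact mul_le_of_le_one_left (norm_nonneg _) (hψ _)
    · rw [h]
      push_cast
      have h1 : ‖ψ ((a + j) / Q + 1) * f p‖ ≤ 1 := by
        rw [norm_mul]; exact mul_le_one₀ (hψ _) (norm_nonneg _) (hf _)
      have h2 : ‖ψ ((a + j) / Q) * f q‖ ≤ 1 := by
        rw [norm_mul]; exact mul_le_one₀ (hψ _) (norm_nonneg _) (hf _)
      have h3 := norm_sub_le (ψ ((a + j) / Q + 1) * f p) (ψ ((a + j) / Q) * f q)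
      have h4 := norm_nonneg (f p - f q)
      linarith
  refine (sum_le_sum fun j _ => hstep j).trans ?_
  rw [sum_add_distrib, ← mul_sum, sum_range_sub (fun j => (((a + j) / Q : ℕ) : ℝ)) l]
  have h1 := hB (z + (a : ZMod N)) l
  have h2 := la_div_le a l Q hQ
  have h3 : a / Q ≤ (a + l) / Q := Nat.div_le_div_right (by omega)
  rw [Nat.cast_sub h3] at h2
  have h4 : a + 0 = a := rfl
  rw [h4]
  have h5 : (B + 2) * (l / Q + 1) = B * (l / Q + 1) + 2 * (l / Q + 1) := by ring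
  linarith

/-! ### the blocks -/

theorem la_blk_val {N p Q : ℕ} (hN : N = Q * p) (hQ : 1 ≤ Q) (T e : ℕ) (he : e < Q) :
    ((((Q * T + e : ℕ) : ZMod N).val / Q : ℕ) : ZMod p) = (T : ZMod p) := by
  subst hN
  rw [ZMod.val_natCast, Nat.mod_mul_right_div_self]
  have h1 : (Q * T + e) / Q = T := by
    rw [Nat.mul_add_div (by omega), Nat.div_eq_of_lt he, add_zero]
  rw [h1, ZMod.natCast_mod]

theorem la_Qval {N p Q : ℕ} [NeZero p] (hN : N = Q * p) (a : ZMod p) (b : ℕ) :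
    ((Q * (a + (b : ZMod p)).val : ℕ) : ZMod N) = ((Q * a.val : ℕ) : ZMod N) + ((Q * b : ℕ) : ZMod N) := by
  subst hN
  rw [ZMod.val_add, ZMod.val_natCast, Nat.add_mod_mod, ← Nat.mul_mod_mul_left, ZMod.natCast_mod]
  push_cast
  ring

theorem la_unit {p q : ℕ} (hp : p.Prime) (hq : 1 ≤ q) (hqp : q < p) :
    (q : ZMod p) * (q : ZMod p)⁻¹ = 1 := by
  have : Fact p.Prime := ⟨hp⟩
  refine mul_inv_cancel₀ ?_
  intro h
  rw [ZMod.natCast_eq_zero_iff] at h
  exact absurd (Nat.le_of_dvd (by omega) h) (by omega)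

theorem la_expect {N p Q q : ℕ} [NeZero N] [NeZero p] (hp : p.Prime) (hN : N = Q * p)
    (hq : 1 ≤ q) (hqp : q < p) (r A : ZMod p) (F : ZMod N → ℂ) :
    𝔼 x, F x = 𝔼 v ∈ range p, 𝔼 e ∈ range Q,
      F (((Q * ((q : ZMod p) * (r + (v : ZMod p)) - A).val : ℕ) : ZMod N) + (e : ZMod N)) := by
  have hQ : 0 < Q := by
    have := NeZero.ne N
    rcases Nat.eq_zero_or_pos Q with h | h
    · rw [h, zero_mul] at hN; exact absurd hN this
    · exact h
  rw [lpl_expect_range, expect_eq_sum_div_card, card_range]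
  have h1 : ∑ v ∈ range N, F (v : ZMod N) = ∑ y ∈ range p, ∑ e ∈ range Q,
      F ((y * Q + e : ℕ) : ZMod N) := by
    rw [← lpl_sum_blocks (fun v => F (v : ZMod N)) p Q]
    congr 1
    rw [hN, mul_comm]
  set G : ZMod p → ℂ := fun y => ∑ e ∈ range Q, F (((Q * y.val : ℕ) : ZMod N) + (e : ZMod N)) with hG
  have h2 : ∑ y ∈ range p, ∑ e ∈ range Q, F ((y * Q + e : ℕ) : ZMod N) =
      ∑ y ∈ range p, G (y : ZMod p) := by
    refine sum_congr rfl fun y hy => ?_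
    rw [hG]
    simp only
    rw [ZMod.val_natCast_of_lt (mem_range.1 hy)]
    refine sum_congr rfl fun e _ => ?_
    congr 1
    push_cast; ring
  have h3 : ∀ H : ZMod p → ℂ, ∑ y ∈ range p, H (y : ZMod p) = ∑ y : ZMod p, H y := by
    intro H
    have h4 := lpl_expect_range (N := p) H
    rw [expect_eq_sum_div_card, expect_eq_sum_div_card, card_univ, ZMod.card, card_range] at h4
    have hp0 : (p : ℂ) ≠ 0 := by exact_mod_cast NeZero.ne p
    rw [div_left_inj' hp0] at h4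
    exact h4.symm
  have hbij : Function.Bijective (fun v : ZMod p => (q : ZMod p) * (r + v) - A) := by
    have hu := la_unit hp hq hqp
    refine ⟨fun v w h => ?_, fun y => ⟨(q : ZMod p)⁻¹ * (y + A) - r, ?_⟩⟩
    · simp only at h
      have h5 : (q : ZMod p) * (r + v) = (q : ZMod p) * (r + w) := by
        linear_combination h
      have h6 : (q : ZMod p)⁻¹ * ((q : ZMod p) * (r + v)) = (q : ZMod p)⁻¹ * ((q : ZMod p) * (r + w)) := by
        rw [h5]
      linear_combination h6 - (v - w) * hu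
    · simp only
      linear_combination (y + A) * hu
  have h4 : ∑ v ∈ range p, G ((q : ZMod p) * (r + (v : ZMod p)) - A) = ∑ y : ZMod p, G y := by
    rw [h3 (fun v => G ((q : ZMod p) * (r + v) - A))]
    exact hbij.sum_comp G
  rw [h1, h2, h3 G, ← h4, expect_eq_sum_div_card, card_range]
  have h5 : ∀ v ∈ range p, (𝔼 e ∈ range Q,
      F (((Q * ((q : ZMod p) * (r + (v : ZMod p)) - A).val : ℕ) : ZMod N) + (e : ZMod N))) =
      G ((q : ZMod p) * (r + (v : ZMod p)) - A) / Q := by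
    intro v _
    rw [expect_eq_sum_div_card, card_range]
  rw [sum_congr rfl h5, ← sum_div, div_div, hN]
  push_cast
  ring

theorem la_sum_dvd (q L M : ℕ) (hq : 1 ≤ q) (hM : q * L ≤ M) (G : ℕ → ℂ)
    (hG : ∀ y, y < M → ¬ (y < q * L ∧ q ∣ y) → G y = 0) :
    ∑ y ∈ range M, G y = ∑ w ∈ range L, G (q * w) := by
  have h1 : ∑ y ∈ (range L).image (fun w => q * w), G y = ∑ w ∈ range L, G (q * w) := by
    rw [sum_image]
    intro a _ b _ h
    exact Nat.eq_of_mul_eq_mul_left (by omega) h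
  rw [← h1]
  symm
  refine sum_subset ?_ ?_
  · intro y hy
    obtain ⟨w, hw, rfl⟩ := mem_image.1 hy
    have hw := mem_range.1 hw
    rw [mem_range]
    have : q * w < q * L := Nat.mul_lt_mul_of_pos_left hw (by omega)
    omega
  · intro y hyM hy
    refine hG y (mem_range.1 hyM) fun h => hy ?_
    obtain ⟨h2, w, rfl⟩ := h
    refine mem_image.2 ⟨w, ?_, rfl⟩
    rw [mem_range]
    exact Nat.lt_of_mul_lt_mul_left h2

/-! ### localisation to a cell -/

/-- the average over a cell -/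
def laE2 {m N : ℕ} (S : Sys (m + 1)) (c : Fin (m + 1) → ℝ) (f0 : ZMod N → ℂ)
    (f : Fin m → ZMod N → ℂ) (X L Q q κ : ℕ) (z : ZMod N) (cc : ℕ → ℂ) (φ : ℕ → ℝ) (ϑ : ℝ)
    (r0 u' J : ℕ) (τ : ℕ → ℕ) : ℂ :=
  𝔼 j ∈ Ico u' (u' + J), 𝔼 w ∈ range L, 𝔼 e' ∈ range Q,
    f0 (z + ((Q * (q * w) + e' : ℕ) : ZMod N)) *
    (∏ i : Fin m, f i (z + ((Q * (q * w) + e' : ℕ) : ZMod N) +
      (S.a c i.castSucc (q * j + r0) : ZMod N))) *
    (cpf X L κ cc φ ϑ (w + τ j) * e (ϑ * ((w : ℝ) + (τ j : ℝ))))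

theorem la_cell {m N : ℕ} [NeZero N] (S : Sys (m + 1)) (c : Fin (m + 1) → ℝ) (η : ℝ)
    (hη : 0 < η) (p Q q X q0 J Bd r0 u' A : ℕ) [NeZero p] (hX : 1 ≤ X) (hq0 : 1 ≤ q0)
    (hp : p.Prime) (hN : N = Q * p) (hQ : 1 ≤ Q) (hq : 1 ≤ q) (hqp : q < p)
    (hLN : ((X * q0 : ℕ) : ℝ) ≤ η / 4 * p) (τ : ℕ → ℕ)
    (hτ : ∀ j ∈ Ico u' (u' + J), S.a c (Fin.last m) (q * j + r0) = ((Q * (A + q * τ j) : ℕ) : ℤ) ∧
      τ j ≤ Bd)
    (hBd : (Bd : ℝ) ≤ η / 8 * ((X * q0 : ℕ) : ℝ))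
    (f0 : ZMod N → ℂ) (f : Fin m → ZMod N → ℂ) (hf0 : ∀ x, ‖f0 x‖ ≤ 1) (hf : ∀ i x, ‖f i x‖ ≤ 1)
    (r : ZMod p) (cc : ℕ → ℂ) (φ θ : ℕ → ℝ) (hcc : ∀ j, ‖cc j‖ ≤ 1)
    (h : η / 2 ≤ ‖𝔼 j ∈ Ico u' (u' + J), 𝔼 x : ZMod N, f0 x *
      ∏ i, (Fin.snoc (α := fun _ => ZMod N → ℂ) f
        (blk Q fun y : ZMod p => bphase X r cc φ (y * (q : ZMod p)⁻¹)) : Fin (m + 1) → ZMod N → ℂ) i
        (x + (S.a c i (q * j + r0) : ZMod N))‖) :
    ∃ κ : ℕ, (κ + 1) * (X * q0) ≤ p ∧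
      η / 8 ≤ ‖laE2 S c f0 f X (X * q0) Q q κ
        ((Q * ((q : ZMod p) * (r + ((κ * (X * q0) : ℕ) : ZMod p)) - (A : ZMod p)).val : ℕ) : ZMod N)
        cc φ (θ κ) r0 u' J τ‖ := by
  set L := X * q0 with hL
  have hL1 : 1 ≤ L := Nat.mul_pos hX hq0
  have hL0 : (0 : ℝ) < L := by exact_mod_cast hL1
  set b0 : ZMod p → ℂ := bphase X r cc φ with hb0
  have hbn : ∀ x, ‖b0 x‖ ≤ 1 := by
    intro x
    rw [hb0]
    unfold bphase
    rw [norm_mul, norm_e, mul_one]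
    exact hcc _
  set g : ZMod N → ℂ := blk Q fun y : ZMod p => b0 (y * (q : ZMod p)⁻¹) with hg
  have hgn : ∀ x, ‖g x‖ ≤ 1 := fun x => hbn _
  set F : ℕ → ZMod N → ℂ := fun j x => f0 x *
    ((∏ i : Fin m, f i (x + (S.a c i.castSucc (q * j + r0) : ZMod N))) *
    g (x + (S.a c (Fin.last m) (q * j + r0) : ZMod N))) with hF
  have hFn : ∀ k x, ‖F k x‖ ≤ 1 := by
    intro k x
    simp only [hF]
    rw [norm_mul, norm_mul, norm_prod]
    have h1 : ∏ i : Fin m, ‖f i (x + (S.a c i.castSucc (q * k + r0) : ZMod N))‖ ≤ 1 :=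
      prod_le_one (fun _ _ => norm_nonneg _) fun i _ => hf i _
    have h2 : (∏ i : Fin m, ‖f i (x + (S.a c i.castSucc (q * k + r0) : ZMod N))‖) *
      ‖g (x + (S.a c (Fin.last m) (q * k + r0) : ZMod N))‖ ≤ 1 :=
      mul_le_one₀ h1 (norm_nonneg _) (hgn _)
    exact mul_le_one₀ (hf0 _) (by positivity) h2
  set pt : ℕ → ZMod N := fun v =>
    ((Q * ((q : ZMod p) * (r + (v : ZMod p)) - (A : ZMod p)).val : ℕ) : ZMod N) with hpt
  have hform : (𝔼 j ∈ Ico u' (u' + J), 𝔼 x : ZMod N, f0 x *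
      ∏ i, (Fin.snoc (α := fun _ => ZMod N → ℂ) f g : Fin (m + 1) → ZMod N → ℂ) i
        (x + (S.a c i (q * j + r0) : ZMod N))) =
      𝔼 v ∈ range p, 𝔼 j ∈ Ico u' (u' + J), 𝔼 e' ∈ range Q, F j (pt v + (e' : ZMod N)) := by
    rw [expect_comm (range p)]
    refine expect_congr rfl fun j _ => ?_
    rw [← la_expect hp hN hq hqp r (A : ZMod p) (F j)]
    refine expect_congr rfl fun x _ => ?_
    simp only [hF]
    rw [Fin.prod_univ_castSucc]
    simp only [Fin.snoc_castSucc, Fin.snoc_last]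
  rw [hform] at h
  obtain ⟨κ, hκ, h3⟩ := lpl_cut
    (fun v => 𝔼 j ∈ Ico u' (u' + J), 𝔼 e' ∈ range Q, F j (pt v + (e' : ZMod N)))
    (fun k => norm_expect_le_of5 _ _ zero_le_one fun j _ =>
      norm_expect_le_of5 _ _ zero_le_one fun x _ => hFn _ _) p L (η / 2) (by positivity) hL1
    (by linarith) h
  refine ⟨κ, hκ, ?_⟩
  set ϑ := θ κ with hϑ
  rw [expect_comm] at h3
  have hz : ((Q * ((q : ZMod p) * (r + ((κ * L : ℕ) : ZMod p)) - (A : ZMod p)).val : ℕ) : ZMod N) =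
      pt (κ * L) := rfl
  rw [hz]
  set z : ZMod N := pt (κ * L) with hzdef
  have hptw : ∀ w e' : ℕ, pt (κ * L + w) + (e' : ZMod N) = z + ((Q * (q * w) + e' : ℕ) : ZMod N) := by
    intro w e'
    have h1 := la_Qval hN ((q : ZMod p) * (r + ((κ * L : ℕ) : ZMod p)) - (A : ZMod p)) (q * w)
    have h2 : (q : ZMod p) * (r + ((κ * L : ℕ) : ZMod p)) - (A : ZMod p) + ((q * w : ℕ) : ZMod p) =
        (q : ZMod p) * (r + ((κ * L + w : ℕ) : ZMod p)) - (A : ZMod p) := by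
      push_cast; ring
    rw [h2] at h1
    have h3 : pt (κ * L + w) = z + ((Q * (q * w) : ℕ) : ZMod N) := h1
    rw [h3, add_assoc, Nat.cast_add (Q * (q * w)) e']
  have hu := la_unit hp hq hqp
  have h5 : ‖(𝔼 j ∈ Ico u' (u' + J), 𝔼 w ∈ range L, 𝔼 e' ∈ range Q,
      F j (pt (κ * L + w) + (e' : ZMod N))) -
      e (ϑ * ((κ * L : ℕ) : ℝ)) * laE2 S c f0 f X L Q q κ z cc φ ϑ r0 u' J τ‖ ≤ η / 8 := by
    unfold laE2
    rw [mul_expect, ← expect_sub_distrib]
    refine norm_expect_le_of5 _ _ (by positivity) fun j hj => ?_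
    rw [mul_expect, ← expect_sub_distrib]
    obtain ⟨hb1, hb2⟩ := hτ j hj
    have hy : ∀ w ∈ range L, ‖(𝔼 e' ∈ range Q, F j (pt (κ * L + w) + (e' : ZMod N))) -
        e (ϑ * ((κ * L : ℕ) : ℝ)) * (𝔼 e' ∈ range Q, f0 (z + ((Q * (q * w) + e' : ℕ) : ZMod N)) *
        (∏ i : Fin m, f i (z + ((Q * (q * w) + e' : ℕ) : ZMod N) +
          (S.a c i.castSucc (q * j + r0) : ZMod N))) *
        (cpf X L κ cc φ ϑ (w + τ j) * e (ϑ * ((w : ℝ) + (τ j : ℝ)))))‖ ≤
        (if w + τ j < L then (0 : ℝ) else 1) := by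
      intro w hwL
      have hwL := mem_range.1 hwL
      rw [mul_expect, ← expect_sub_distrib]
      have h0 : (0 : ℝ) ≤ (if w + τ j < L then (0 : ℝ) else 1) := by split_ifs <;> norm_num
      refine norm_expect_le_of5 _ _ h0 fun e' he' => ?_
      have he' := mem_range.1 he'
      rw [hptw]
      by_cases hw : w + τ j < L
      · rw [if_pos hw]
        apply le_of_eq
        rw [norm_eq_zero, sub_eq_zero]
        simp only [hF]
        have hlt : κ * L + (w + τ j) < p := by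
          have : (κ + 1) * L = κ * L + L := by ring
          omega
        have e3 : g (z + ((Q * (q * w) + e' : ℕ) : ZMod N) +
            (S.a c (Fin.last m) (q * j + r0) : ZMod N)) =
            cc ((κ * L + (w + τ j)) / X) *
              e (φ ((κ * L + (w + τ j)) / X) * ((κ * L + (w + τ j) : ℕ) : ℝ)) := by
          have e4 : z + ((Q * (q * w) + e' : ℕ) : ZMod N) +
              (S.a c (Fin.last m) (q * j + r0) : ZMod N) =
              ((Q * (((q : ZMod p) * (r + ((κ * L : ℕ) : ZMod p)) - (A : ZMod p)).val +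
                (q * w + (A + q * τ j))) + e' : ℕ) : ZMod N) := by
            rw [hb1, hzdef]
            simp only [hpt]
            push_cast; ring
          rw [e4, hg]
          unfold blk
          rw [la_blk_val hN hQ _ _ he', Nat.cast_add, ZMod.natCast_zmod_val]
          have e5 : ((q : ZMod p) * (r + ((κ * L : ℕ) : ZMod p)) - (A : ZMod p) +
              ((q * w + (A + q * τ j) : ℕ) : ZMod p)) * (q : ZMod p)⁻¹ =
              r + ((κ * L + (w + τ j) : ℕ) : ZMod p) := by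
            push_cast
            linear_combination (r + κ * L + w + τ j) * hu
          beta_reduce
          rw [e5, hb0]
          unfold bphase
          rw [add_sub_cancel_left, ZMod.val_natCast_of_lt hlt]
        rw [e3]
        unfold cpf
        rw [if_pos hw]
        have e4 : e (φ ((κ * L + (w + τ j)) / X) * ((κ * L + (w + τ j) : ℕ) : ℝ)) =
            e (ϑ * ((κ * L : ℕ) : ℝ)) *
            (e ((φ ((κ * L + (w + τ j)) / X) - ϑ) * ((κ * L + (w + τ j) : ℕ) : ℝ)) *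
            e (ϑ * ((w : ℝ) + (τ j : ℝ)))) := by
          rw [← e_add, ← e_add]
          congr 1
          push_cast; ring
        rw [e4]
        ring
      · rw [if_neg hw]
        unfold cpf
        rw [if_neg hw, zero_mul, mul_zero, mul_zero, sub_zero]
        exact hFn _ _
    refine (norm_expect_le5 _ _).trans ?_
    rw [expect_eq_sum_div_card, card_range, div_le_iff₀ hL0]
    refine (sum_le_sum hy).trans ((lpl_count L (τ j)).trans ?_)
    have : (τ j : ℝ) ≤ Bd := by exact_mod_cast hb2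
    linarith
  have h6 : ‖e (ϑ * ((κ * L : ℕ) : ℝ)) * laE2 S c f0 f X L Q q κ z cc φ ϑ r0 u' J τ‖ =
      ‖laE2 S c f0 f X L Q q κ z cc φ ϑ r0 u' J τ‖ := by
    rw [norm_mul, norm_e, one_mul]
  rw [← h6]
  have h7 := norm_sub_norm_le (𝔼 j ∈ Ico u' (u' + J), 𝔼 w ∈ range L, 𝔼 e' ∈ range Q,
      F j (pt (κ * L + w) + (e' : ZMod N)))
    (e (ϑ * ((κ * L : ℕ) : ℝ)) * laE2 S c f0 f X L Q q κ z cc φ ϑ r0 u' J τ)
  linarith

/-! ### transport of a cell -/

/-- the weight on the first coordinate -/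
def laψ (q L : ℕ) (ϑ : ℝ) (y : ℕ) : ℂ :=
  if y < q * L ∧ q ∣ y then e (ϑ * ((y / q : ℕ) : ℝ)) else 0

theorem laψ_norm (q L : ℕ) (ϑ : ℝ) (y : ℕ) : ‖laψ q L ϑ y‖ ≤ 1 := by
  unfold laψ
  split_ifs
  · rw [norm_e]
  · simp

theorem la_transport {m N N' : ℕ} [NeZero N'] (S S' : Sys (m + 1)) (c : Fin (m + 1) → ℝ)
    (f0 : ZMod N → ℂ) (f : Fin m → ZMod N → ℂ) (X L Q q κ p' A : ℕ) (z : ZMod N) (cc : ℕ → ℂ)
    (φ : ℕ → ℝ) (ϑ : ℝ) (r0 u' J : ℕ) (τ : ℕ → ℕ) (hL : 1 ≤ L) (hq : 1 ≤ q) (hQ : 1 ≤ Q)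
    (hp' : 4 * (q * L) ≤ p') (hN' : N' = Q * p') (hI : S'.I = Ico u' (u' + J))
    (ha : ∀ i, ∀ j ∈ Ico u' (u' + J), S'.a c i j = S.a c i (q * j + r0))
    (hai : ∀ i : Fin m, ∀ j ∈ Ico u' (u' + J), 0 ≤ S.a c i.castSucc (q * j + r0) ∧
      S.a c i.castSucc (q * j + r0) ≤ ((Q * (q * L) : ℕ) : ℤ))
    (hτ : ∀ j ∈ Ico u' (u' + J), S.a c (Fin.last m) (q * j + r0) = ((Q * (A + q * τ j) : ℕ) : ℤ) ∧
      τ j ≤ L) :
    form (N := N') S' c (fun j => e (ϑ * (τ j : ℝ)))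
      (fun x => laψ q L ϑ (x.val / Q) * f0 (z + (x.val : ZMod N)))
      (Fin.snoc (α := fun _ => ZMod N' → ℂ) (fun i x => f i (z + (x.val : ZMod N)))
        (fun x => cpf X L κ cc φ ϑ ((x - ((Q * A : ℕ) : ZMod N')).val / Q / q))) =
    (L / p' : ℂ) * laE2 S c f0 f X L Q q κ z cc φ ϑ r0 u' J τ := by
  have hqL : 1 ≤ q * L := Nat.mul_pos hq hL
  have hp'0 : 0 < p' := by omega
  unfold form laE2
  rw [mul_expect, hI]
  refine expect_congr rfl fun j hj => ?_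
  obtain ⟨hb1, hb2⟩ := hτ j hj
  have hlt : ∀ w e' n : ℕ, w < L → e' < Q → n ≤ Q * (q * L) → q * w * Q + e' + n < N' := by
    intro w e' n hw he hn
    have h1 : q * w + 1 ≤ q * L := by
      have : q * w < q * L := Nat.mul_lt_mul_of_pos_left hw (by omega)
      omega
    have h2 : (q * w + 1) * Q ≤ q * L * Q := Nat.mul_le_mul_right _ h1
    have h3 : Q * (4 * (q * L)) ≤ Q * p' := Nat.mul_le_mul_left _ hp'
    have h4 : Q * (4 * (q * L)) = 4 * (q * L * Q) := by ring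
    have h5 : (q * w + 1) * Q = q * w * Q + Q := by ring
    have h6 : Q * (q * L) = q * L * Q := by ring
    rw [hN']
    omega
  have hval : ∀ (w e' n : ℕ) (a : ZMod N'), w < L → e' < Q → n ≤ Q * (q * L) → a = (n : ZMod N') →
      (((q * w * Q + e' : ℕ) : ZMod N') + a).val = q * w * Q + e' + n := by
    intro w e' n a hw he hn ha
    rw [ha, ← Nat.cast_add, ZMod.val_natCast_of_lt (hlt w e' n hw he hn)]
  have hsum : ∀ H : ZMod N' → ℂ, (∀ y e' : ℕ, y < p' → e' < Q → ¬ (y < q * L ∧ q ∣ y) →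
      H ((y * Q + e' : ℕ) : ZMod N') = 0) →
      ∑ v ∈ range N', H (v : ZMod N') = ∑ w ∈ range L, ∑ e' ∈ range Q,
        H ((q * w * Q + e' : ℕ) : ZMod N') := by
    intro H hH
    have h1 : ∑ v ∈ range N', H (v : ZMod N') = ∑ y ∈ range p', ∑ e' ∈ range Q,
        H ((y * Q + e' : ℕ) : ZMod N') := by
      rw [← lpl_sum_blocks (fun v => H (v : ZMod N')) p' Q]
      congr 1
      rw [hN', mul_comm]
    rw [h1]
    exact la_sum_dvd q L p' hq (by omega) (fun y => ∑ e' ∈ range Q, H ((y * Q + e' : ℕ) : ZMod N'))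
      fun y hy hyn => sum_eq_zero fun e' he' => hH y e' hy (mem_range.1 he') hyn
  obtain ⟨H, hH⟩ : ∃ H : ZMod N' → ℂ, H = fun x =>
      laψ q L ϑ (x.val / Q) * f0 (z + (x.val : ZMod N)) *
      ∏ i, (Fin.snoc (α := fun _ => ZMod N' → ℂ) (fun i x => f i (z + (x.val : ZMod N)))
        (fun x => cpf X L κ cc φ ϑ ((x - ((Q * A : ℕ) : ZMod N')).val / Q / q)) :
        Fin (m + 1) → ZMod N' → ℂ) i (x + (S'.a c i j : ZMod N')) := ⟨_, rfl⟩
  have hz : ∀ y e' : ℕ, y < p' → e' < Q → ¬ (y < q * L ∧ q ∣ y) →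
      H ((y * Q + e' : ℕ) : ZMod N') = 0 := by
    intro y e' hy he hyn
    rw [hH]
    have h1 : y * Q + e' < N' := by
      rw [hN']
      have : (y + 1) * Q ≤ p' * Q := Nat.mul_le_mul_right _ hy
      have h2 : (y + 1) * Q = y * Q + Q := by ring
      have h3 : p' * Q = Q * p' := by ring
      omega
    have h2 : (((y * Q + e' : ℕ) : ZMod N')).val / Q = y := by
      rw [ZMod.val_natCast_of_lt h1, mul_comm, Nat.mul_add_div (by omega), Nat.div_eq_of_lt he,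
        add_zero]
    simp only
    rw [h2]
    unfold laψ
    rw [if_neg hyn, zero_mul, zero_mul]
  have hQ0 : (Q : ℂ) ≠ 0 := by
    have : Q ≠ 0 := by omega
    exact_mod_cast this
  have hL0 : (L : ℂ) ≠ 0 := by
    have : L ≠ 0 := by omega
    exact_mod_cast this
  have hp0 : (p' : ℂ) ≠ 0 := by
    have : p' ≠ 0 := by omega
    exact_mod_cast this
  have hmain : ∀ w ∈ range L, ∀ e' ∈ range Q, e (ϑ * (τ j : ℝ)) *
      (laψ q L ϑ (((q * w * Q + e' : ℕ) : ZMod N').val / Q) *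
        f0 (z + ((((q * w * Q + e' : ℕ) : ZMod N').val : ℕ) : ZMod N)) *
      ∏ i, (Fin.snoc (α := fun _ => ZMod N' → ℂ) (fun i x => f i (z + (x.val : ZMod N)))
        (fun x => cpf X L κ cc φ ϑ ((x - ((Q * A : ℕ) : ZMod N')).val / Q / q)) :
        Fin (m + 1) → ZMod N' → ℂ) i
        (((q * w * Q + e' : ℕ) : ZMod N') + (S'.a c i j : ZMod N'))) =
      f0 (z + ((Q * (q * w) + e' : ℕ) : ZMod N)) *
      (∏ i : Fin m, f i (z + ((Q * (q * w) + e' : ℕ) : ZMod N) +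
        (S.a c i.castSucc (q * j + r0) : ZMod N))) *
      (cpf X L κ cc φ ϑ (w + τ j) * e (ϑ * ((w : ℝ) + (τ j : ℝ)))) := by
    intro w hw e' he'
    have hw := mem_range.1 hw
    have he' := mem_range.1 he'
    have hcomm : q * w * Q + e' = Q * (q * w) + e' := by ring
    have e0 : (((q * w * Q + e' : ℕ) : ZMod N')).val = q * w * Q + e' := by
      have := hval w e' 0 0 hw he' (by omega) (by simp)
      simpa using this
    have e00 : (q * w * Q + e') / Q = q * w := by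
      rw [hcomm, Nat.mul_add_div (by omega), Nat.div_eq_of_lt he', add_zero]
    rw [e0, e00, Fin.prod_univ_castSucc]
    simp only [Fin.snoc_castSucc, Fin.snoc_last]
    have e1 : ∀ i : Fin m, f i (z + ((((((q * w * Q + e' : ℕ) : ZMod N') +
        (S'.a c i.castSucc j : ZMod N')).val : ℕ) : ZMod N))) =
        f i (z + ((Q * (q * w) + e' : ℕ) : ZMod N) + (S.a c i.castSucc (q * j + r0) : ZMod N)) := by
      intro i
      obtain ⟨h1, h2⟩ := hai i j hj
      obtain ⟨n, hn⟩ := Int.eq_ofNat_of_zero_le h1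
      have h3 : S'.a c i.castSucc j = (n : ℤ) := by rw [ha _ j hj, hn]
      have h4 : n ≤ Q * (q * L) := by
        rw [hn] at h2; exact_mod_cast h2
      rw [hval w e' n _ hw he' h4 (by rw [h3, Int.cast_natCast]), hn, hcomm]
      congr 1
      push_cast; ring
    simp only [e1]
    have e2 : ((q * w * Q + e' : ℕ) : ZMod N') + (S'.a c (Fin.last m) j : ZMod N') -
        ((Q * A : ℕ) : ZMod N') = ((q * w * Q + e' : ℕ) : ZMod N') +
        ((Q * (q * τ j) : ℕ) : ZMod N') := by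
      rw [ha _ j hj, hb1]
      push_cast; ring
    have e3 : Q * (q * τ j) ≤ Q * (q * L) :=
      Nat.mul_le_mul_left _ (Nat.mul_le_mul_left _ hb2)
    have e4 : (q * w * Q + e' + Q * (q * τ j)) / Q / q = w + τ j := by
      have h1 : q * w * Q + e' + Q * (q * τ j) = Q * (q * (w + τ j)) + e' := by ring
      rw [h1, Nat.mul_add_div (by omega), Nat.div_eq_of_lt he', add_zero,
        Nat.mul_div_cancel_left _ (by omega)]
    rw [e2, hval w e' _ _ hw he' e3 rfl, e4]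
    unfold laψ
    rw [if_pos ⟨Nat.mul_lt_mul_of_pos_left hw (by omega), Dvd.intro _ rfl⟩,
      Nat.mul_div_cancel_left _ (by omega : 0 < q), hcomm]
    have e5 : e (ϑ * ((w : ℝ) + (τ j : ℝ))) = e (ϑ * (w : ℝ)) * e (ϑ * (τ j : ℝ)) := by
      rw [← e_add]; congr 1; ring
    rw [e5]
    ring
  have hmain' : ∀ w ∈ range L, ∀ e' ∈ range Q, e (ϑ * (τ j : ℝ)) *
      H ((q * w * Q + e' : ℕ) : ZMod N') =
      f0 (z + ((Q * (q * w) + e' : ℕ) : ZMod N)) *
      (∏ i : Fin m, f i (z + ((Q * (q * w) + e' : ℕ) : ZMod N) +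
        (S.a c i.castSucc (q * j + r0) : ZMod N))) *
      (cpf X L κ cc φ ϑ (w + τ j) * e (ϑ * ((w : ℝ) + (τ j : ℝ)))) := by
    rw [hH]; exact hmain
  have hgoal : (𝔼 x : ZMod N', laψ q L ϑ (x.val / Q) * f0 (z + (x.val : ZMod N)) *
      ∏ i, (Fin.snoc (α := fun _ => ZMod N' → ℂ) (fun i x => f i (z + (x.val : ZMod N)))
        (fun x => cpf X L κ cc φ ϑ ((x - ((Q * A : ℕ) : ZMod N')).val / Q / q)) :
        Fin (m + 1) → ZMod N' → ℂ) i (x + (S'.a c i j : ZMod N'))) = 𝔼 x : ZMod N', H x := by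
    rw [hH]
  refine (congrArg (fun t => e (ϑ * (τ j : ℝ)) * t) hgoal).trans ?_
  rw [lpl_expect_range, expect_eq_sum_div_card, card_range, hsum H hz, ← mul_div_assoc, mul_sum]
  have h1 : ∀ w ∈ range L, e (ϑ * (τ j : ℝ)) * (∑ e' ∈ range Q,
      H ((q * w * Q + e' : ℕ) : ZMod N')) =
      Q * 𝔼 e' ∈ range Q, f0 (z + ((Q * (q * w) + e' : ℕ) : ZMod N)) *
      (∏ i : Fin m, f i (z + ((Q * (q * w) + e' : ℕ) : ZMod N) +
        (S.a c i.castSucc (q * j + r0) : ZMod N))) *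
      (cpf X L κ cc φ ϑ (w + τ j) * e (ϑ * ((w : ℝ) + (τ j : ℝ)))) := by
    intro w hw
    rw [mul_sum, sum_congr rfl (hmain' w hw), expect_eq_sum_div_card, card_range,
      mul_div_left_comm, div_self hQ0, mul_one]
  rw [sum_congr rfl h1, ← mul_sum, expect_eq_sum_div_card (s := range L), card_range, hN']
  push_cast
  field_simp

/-! ### the differences of the top sequence -/

theorem la_pow_le (a c d : ℕ) : (a + c) ^ d ≤ a ^ d + d * (a + c) ^ (d - 1) * c := by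
  induction d with
  | zero => simp
  | succ d ih =>
    rcases Nat.eq_zero_or_pos d with h | h
    · subst h; simp
    · have h1 : (a + c) ^ (d - 1) * a ≤ (a + c) ^ d := by
        obtain ⟨d', rfl⟩ : ∃ d', d = d' + 1 := ⟨d - 1, by omega⟩
        rw [Nat.add_sub_cancel, pow_succ]
        exact Nat.mul_le_mul_left _ (by omega)
      rw [Nat.add_sub_cancel]
      calc (a + c) ^ (d + 1) = (a + c) ^ d * a + (a + c) ^ d * c := by rw [pow_succ]; ring
        _ ≤ (a ^ d + d * (a + c) ^ (d - 1) * c) * a + (a + c) ^ d * c :=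
            Nat.add_le_add_right (Nat.mul_le_mul_right _ ih) _
        _ = a ^ (d + 1) + d * ((a + c) ^ (d - 1) * a) * c + (a + c) ^ d * c := by
            rw [pow_succ]; ring
        _ ≤ a ^ (d + 1) + d * (a + c) ^ d * c + (a + c) ^ d * c := by gcongr
        _ = a ^ (d + 1) + (d + 1) * (a + c) ^ d * c := by ring

theorem la_tau (lam r q d u' r0 j : ℕ) (hj : u' ≤ j) :
    (lam * (q * j + r0) + r) ^ d = (lam * (q * u' + r0) + r) ^ d +
      q * (((lam * (q * j + r0) + r) ^ d - (lam * (q * u' + r0) + r) ^ d) / q) ∧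
    ((lam * (q * j + r0) + r) ^ d - (lam * (q * u' + r0) + r) ^ d) / q ≤
      d * (lam * (q * j + r0) + r) ^ (d - 1) * (lam * (j - u')) := by
  obtain ⟨i, rfl⟩ : ∃ i, j = u' + i := ⟨j - u', by omega⟩
  have h1 : lam * (q * (u' + i) + r0) + r = (lam * (q * u' + r0) + r) + q * (lam * i) := by ring
  rw [h1]
  generalize lam * (q * u' + r0) + r = a
  have h2 : q ∣ (a + q * (lam * i)) ^ d - a ^ d := by
    refine dvd_trans ?_ (Nat.sub_dvd_pow_sub_pow _ _ d)
    rw [Nat.add_sub_cancel_left]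
    exact Dvd.intro _ rfl
  have h3 : a ^ d ≤ (a + q * (lam * i)) ^ d := Nat.pow_le_pow_left (by omega) d
  refine ⟨?_, ?_⟩
  · rw [Nat.mul_div_cancel' h2]; omega
  · have h4 := la_pow_le a (q * (lam * i)) d
    have h5 : (a + q * (lam * i)) ^ d - a ^ d ≤
        q * (d * (a + q * (lam * i)) ^ (d - 1) * (lam * i)) := by
      have h6 : d * (a + q * (lam * i)) ^ (d - 1) * (q * (lam * i)) =
          q * (d * (a + q * (lam * i)) ^ (d - 1) * (lam * i)) := by ring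
      omega
    rw [Nat.add_sub_cancel_left]
    exact Nat.div_le_of_le_mul h5

/-! ### the window -/

theorem la_final {m : ℕ} (S : Sys (m + 1)) (c : Fin (m + 1) → ℝ) (θ' : Fin (m + 1) → ℝ)
    (ϑ A0 W M : ℝ) (q q2 K u' J : ℕ) (τ : ℕ → ℕ) (hq : 1 ≤ q) (hJ : 1 ≤ J)
    (hτ : ∀ j, u' ≤ j → (q : ℝ) * τ j = W * (S.t j) ^ (c (Fin.last m)) - M)
    (h : A0 ≤ 𝔼 k ∈ Ico u' (u' + J), ‖𝔼 j ∈ range K, e (ϑ * (τ (k + q2 * j) : ℝ)) *
        e (∑ i, θ' i * S.P i * (S.t (k + q2 * j)) ^ (c i))‖) :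
    ∃ k, u' ≤ k ∧ k < u' + J ∧ A0 ≤ ‖𝔼 j ∈ range K, e (∑ i,
      (θ' i * S.P i + if i = Fin.last m then ϑ / q * W else 0) *
        ((((k + q2 * j : ℕ) : ℝ) + S.ρ) / S.D) ^ (c i))‖ := by
  obtain ⟨k, hk, hk2⟩ := exists_le_of_le_expect (nonempty_Ico.2 (by omega)) h
  obtain ⟨hk3, hk4⟩ := mem_Ico.1 hk
  refine ⟨k, hk3, hk4, hk2.trans (le_of_eq ?_)⟩
  have hq0 : (q : ℝ) ≠ 0 := by
    have : q ≠ 0 := by omega
    exact_mod_cast this
  have h1 : ∀ j, e (ϑ * (τ (k + q2 * j) : ℝ)) *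
        e (∑ i, θ' i * S.P i * (S.t (k + q2 * j)) ^ (c i)) = e (-(ϑ / q * M)) * e (∑ i,
      (θ' i * S.P i + if i = Fin.last m then ϑ / q * W else 0) *
        ((((k + q2 * j : ℕ) : ℝ) + S.ρ) / S.D) ^ (c i)) := by
    intro j
    rw [← e_add, ← e_add]
    congr 1
    have h2 : ∑ i, (θ' i * S.P i + if i = Fin.last m then ϑ / q * W else 0) *
        ((((k + q2 * j : ℕ) : ℝ) + S.ρ) / S.D) ^ (c i) =
        ∑ i, θ' i * S.P i * (S.t (k + q2 * j)) ^ (c i) +
          ϑ / q * W * (S.t (k + q2 * j)) ^ (c (Fin.last m)) := by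
      have : ∀ i, (θ' i * S.P i + if i = Fin.last m then ϑ / q * W else 0) *
          ((((k + q2 * j : ℕ) : ℝ) + S.ρ) / S.D) ^ (c i) =
          θ' i * S.P i * (S.t (k + q2 * j)) ^ (c i) +
          (if i = Fin.last m then ϑ / q * W * (S.t (k + q2 * j)) ^ (c i) else 0) := by
        intro i
        unfold Sys.t
        split_ifs <;> ring
      simp only [this]
      rw [sum_add_distrib]
      simp
    rw [h2]
    have h3 := hτ (k + q2 * j) (by omega)
    have h4 : (τ (k + q2 * j) : ℝ) = (W * (S.t (k + q2 * j)) ^ (c (Fin.last m)) - M) / q := by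
      rw [← h3]; field_simp
    rw [h4]
    ring
  simp only [h1]
  rw [← mul_expect, norm_mul, norm_e, one_mul]

/-! ### classes of the transported functions -/

theorem la_classes_0 {N N' : ℕ} [NeZero N'] (Q q L : ℕ) (hQ : 1 ≤ Q) (hQN : Q ≤ N') (I M : ℝ)
    (hIM : 2 * I + 6 ≤ M) (z : ZMod N) (ϑ : ℝ) (f0 : ZMod N → ℂ) (hf0 : Adm I Q f0) :
    Adm (N := N') M Q (fun x => laψ q L ϑ (x.val / Q) * f0 (z + (x.val : ZMod N))) := by
  have hQ0 : (0 : ℝ) < Q := by exact_mod_cast hQ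
  have hb : ∀ t : ℕ, ‖laψ q L ϑ (t / Q) * f0 (z + (t : ZMod N))‖ ≤ 1 := by
    intro t
    rw [norm_mul]
    exact mul_le_one₀ (laψ_norm _ _ _ _) (norm_nonneg _) (hf0.bdd _)
  refine ⟨fun x => hb x.val, ?_⟩
  have h1 := lpl_wrap (N' := N') (fun t => laψ q L ϑ (t / Q) * f0 (z + (t : ZMod N))) (I + 2) Q hQ0
    (by exact_mod_cast hQN) hb
    (fun a l => la_f0_tv f0 hf0.bdd I Q hQ hf0.tv (laψ q L ϑ) (laψ_norm q L ϑ) z a l)
  exact h1.mono (by linarith) hQ0 le_rfl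

theorem la_classes_i {N N' : ℕ} [NeZero N'] (Q : ℕ) (hQ : 1 ≤ Q) (hQN : Q ≤ N') (I M : ℝ)
    (hIM : 2 * I + 6 ≤ M) (z : ZMod N) (f : ZMod N → ℂ) (hf : Adm I Q f) :
    Adm (N := N') M Q (fun x => f (z + (x.val : ZMod N))) := by
  have hQ0 : (0 : ℝ) < Q := by exact_mod_cast hQ
  refine ⟨fun x => hf.bdd _, ?_⟩
  have h1 := lpl_wrap (N' := N') (fun t => f (z + (t : ZMod N))) I Q hQ0
    (by exact_mod_cast hQN) (fun t => hf.bdd _) (fun a l => lpl_fi_tv f I Q hf.tv z a l)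
  exact h1.mono (by linarith) hQ0 le_rfl

theorem la_classes_c {N' : ℕ} [NeZero N'] (Q q X q0 κ : ℕ) (hQ : 1 ≤ Q) (hq : 1 ≤ q) (hX : 1 ≤ X)
    (hq0 : 1 ≤ q0) (hN : Q * q * X ≤ N') (W M : ℝ) (hW : 2 ≤ W) (hWM : 32 * W ≤ M) (cc : ℕ → ℂ)
    (φ : ℕ → ℝ) (ϑ : ℝ) (hcc : ∀ j, ‖cc j‖ ≤ 1)
    (hφ : ∀ j, j / q0 = κ → cc j ≠ 0 → |φ j - ϑ| ≤ W / X) (t : ZMod N') :
    Adm (N := N') M ((Q * q * X : ℕ) : ℝ)
      (fun x => cpf X (X * q0) κ cc φ ϑ ((x - t).val / Q / q)) := by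
  have hX0 : (1 : ℝ) ≤ X := by exact_mod_cast hX
  have hR : 1 ≤ Q * q := Nat.mul_pos hQ hq
  have hR0 : (0 : ℝ) < ((Q * q : ℕ) : ℝ) := by exact_mod_cast hR
  have hQX : (0 : ℝ) < ((Q * q * X : ℕ) : ℝ) := by
    have : 0 < Q * q * X := Nat.mul_pos hR hX
    exact_mod_cast this
  have h0 := la_tv_div (cpf X (X * q0) κ cc φ ϑ) (2 * Real.pi * W + 2) X hX0 (Q * q) hR
    (cpf_tv X q0 κ hX hq0 cc φ ϑ W (by linarith) hcc hφ)
  have h1 := lpl_wrap (N' := N') (fun y => cpf X (X * q0) κ cc φ ϑ (y / (Q * q)))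
    (2 * (2 * Real.pi * W + 2)) ((Q * q * X : ℕ) : ℝ) hQX (by exact_mod_cast hN)
    (fun y => cpf_norm X (X * q0) κ cc φ ϑ hcc _)
    (fun a l => by
      have := h0 a l
      rw [Nat.cast_mul (Q * q) X]
      exact this)
  have h2 : Adm (N := N') M ((Q * q * X : ℕ) : ℝ)
      (fun x => cpf X (X * q0) κ cc φ ϑ (x.val / Q / q)) := by
    refine ⟨fun y => cpf_norm X (X * q0) κ cc φ ϑ hcc _, ?_⟩
    have h3 : (fun x : ZMod N' => cpf X (X * q0) κ cc φ ϑ (x.val / Q / q)) =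
        fun x : ZMod N' => cpf X (X * q0) κ cc φ ϑ (x.val / (Q * q)) := by
      funext x
      rw [Nat.div_div_eq_div_mul]
    rw [h3]
    refine h1.mono ?_ hQX le_rfl
    refine le_trans ?_ hWM
    have hπ : Real.pi ≤ 3.15 := Real.pi_lt_d2.le
    have h4 : Real.pi * W ≤ 3.15 * W := mul_le_mul_of_nonneg_right hπ (by linarith)
    linarith
  have h3 := h2.shift (-t)
  simpa only [sub_eq_add_neg] using h3

end

end Pool.Agent.Helper67.NX2
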